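import Pool.Agent.Helper14.TK.StA

/-!
# Project T3K, part A, module KKT: the kernel of the twisted path
-/

set_option autoImplicit false

namespace Pool.Agent.Helper7.TA

open Pool.Agent.Helper14.TK Pool.Agent.Helper14.T3 Pool.Agent.Helper14.CV Pool.Agent.Helper14.W3
  Pool.Agent.Helper78.W3

private lemma sym3_mono {R : Type} [AddCommGroup R] {s s' : ℕ} (hs : s ≤ s') {G : ℤ → ℤ → R}
    (h : Sym3 0 s G) : Sym3 0 s' G :=
  ⟨h.1, fun a b c d hd hb hc => h.2 a b c d hd hb ((pow_dvd_pow 3 hs).trans hc)⟩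

private lemma comb {ψ' ψ G' G : ℤ → ℤ → ℂ} (he : EqC (-act 3 0 0 1 ψ' - ψ') G')
    (hG : EqC G (G' + (-act 3 0 0 1 ψ - ψ))) :
    EqC (-act 3 0 0 1 (ψ' + ψ) - (ψ' + ψ)) G := by
  have h3 := he.add (EqC.refl (-act 3 0 0 1 ψ - ψ))
  have h4 : -act 3 0 0 1 (ψ' + ψ) - (ψ' + ψ) =
      -act 3 0 0 1 ψ' - ψ' + (-act 3 0 0 1 ψ - ψ) := by
    rw [act_add]
    abel
  rw [h4]
  exact h3.trans hG.symm

theorem hKKT : StKKT := by
  intro hKs D s dd hf m G hm
  induction m, hm using Nat.le_induction generalizing G with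
  | base =>
    intro hS hW hst hev
    obtain ⟨G', ψ, hG', hψ, hW', hst', -, hG⟩ := hKs D s dd hf 3 G le_rfl hS hW hst hev
    obtain ⟨ψ', hψ', he⟩ := hf.b9 G' hG' hW' hst'
    exact ⟨ψ' + ψ, (sym3_mono (by omega) hψ').add hψ, comb he hG⟩
  | succ k hk ih =>
    intro hS hW hst hev
    obtain ⟨G', ψ, hG', hψ, hW', hst', hev', hG⟩ := hKs D s dd hf (k + 1) G (by omega) hS hW hst hev
    obtain ⟨ψ', hψ', he⟩ := ih G' hG' hW' hst' hev'
    exact ⟨ψ' + ψ, (sym3_mono (by omega) hψ').add hψ, comb he hG⟩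

end Pool.Agent.Helper7.TA
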